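import Pool.Agent.RHO.Stmts4

set_option autoImplicit false

namespace Pool.Agent.RHO.H33d

open Finset

theorem sg2_sq (c : ZMod 2) : sg2 c * sg2 c = 1 := by
  unfold sg2
  split_ifs <;> norm_num

theorem sg2_add_one (c : ZMod 2) : sg2 (c + 1) = - sg2 c := by
  have h : c = 0 ∨ c = 1 := by
    revert c
    decide
  rcases h with rfl | rfl
  · simp [sg2]
  · have : (1 : ZMod 2) + 1 = 0 := by decide
    rw [this]
    simp [sg2]

theorem coord_mem {ι : Type} [Fintype ι] [DecidableEq ι] (i : ι) :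
    (fun x : Pt ι => x i) ∈ RM ι 1 := by
  refine Submodule.subset_span ⟨{i}, by simp, ?_⟩
  funext z
  simp [mon]

/-- orthogonality of the signs at different points -/
theorem orth {ι : Type} [Fintype ι] [DecidableEq ι] {z z' : Pt ι} (h : z ≠ z') :
    ∑ q : RM ι 1, sg2 ((q : Fn ι) z) * sg2 ((q : Fn ι) z') = 0 := by
  obtain ⟨i, hi⟩ := Function.ne_iff.1 h
  let c : RM ι 1 := ⟨fun x => x i, coord_mem i⟩
  have h1 : ∑ q : RM ι 1, sg2 ((q : Fn ι) z) * sg2 ((q : Fn ι) z') =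
      ∑ q : RM ι 1, sg2 (((q + c : RM ι 1) : Fn ι) z) * sg2 (((q + c : RM ι 1) : Fn ι) z') :=
    (Fintype.sum_equiv (Equiv.addRight c) _ _ (fun q => rfl)).symm
  have h2 : ∀ q : RM ι 1, sg2 (((q + c : RM ι 1) : Fn ι) z) * sg2 (((q + c : RM ι 1) : Fn ι) z') =
      - (sg2 ((q : Fn ι) z) * sg2 ((q : Fn ι) z')) := by
    intro q
    have e : ∀ x : Pt ι, ((q + c : RM ι 1) : Fn ι) x = (q : Fn ι) x + x i := fun x => rfl
    rw [e, e]
    have hz : (z i = 0 ∧ z' i = 1) ∨ (z i = 1 ∧ z' i = 0) := by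
      generalize z i = a at hi
      generalize z' i = b at hi
      revert a b
      decide
    rcases hz with ⟨h3, h4⟩ | ⟨h3, h4⟩
    · rw [h3, h4, add_zero, sg2_add_one]
      ring
    · rw [h3, h4, add_zero, sg2_add_one]
      ring
  rw [Finset.sum_congr rfl (fun q _ => h2 q), Finset.sum_neg_distrib] at h1
  linarith

theorem chb : CHBStmt := by
  intro ι _ _ Q B hB
  rcases Nat.eq_zero_or_pos B.card with h0 | hB0
  · rw [h0]
    simp
  rcases Nat.eq_zero_or_pos Q.card with h0 | hQ0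
  · rw [h0]
    simp
  have hBr : (0:ℝ) < B.card := by exact_mod_cast hB0
  have hQr : (0:ℝ) < Q.card := by exact_mod_cast hQ0
  set f : RM ι 1 → ℝ := fun q => ∑ z ∈ B, sg2 ((q : Fn ι) z) with hf
  -- lower bound
  have hlow : (B.card : ℝ) * (Q.card / 2) ≤ ∑ q ∈ Q, f q := by
    rw [hf, Finset.sum_comm]
    rw [← nsmul_eq_mul, ← Finset.sum_const]
    refine Finset.sum_le_sum fun z hz => ?_
    have h1 : ∀ q : RM ι 1, sg2 ((q : Fn ι) z) = 1 - 2 * (if (q : Fn ι) z = 1 then (1:ℝ) else 0) := by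
      intro q
      have h : (q : Fn ι) z = 0 ∨ (q : Fn ι) z = 1 := by
        generalize (q : Fn ι) z = a
        revert a
        decide
      rcases h with h | h
      · rw [h]; simp [sg2]
      · rw [h]; simp [sg2]; norm_num
    rw [Finset.sum_congr rfl (fun q _ => h1 q), Finset.sum_sub_distrib, ← Finset.mul_sum,
      Finset.sum_const, nsmul_eq_mul, mul_one, Finset.sum_boole]
    have h2 : (4:ℝ) * ((Q.filter fun q : RM ι 1 => (q : Fn ι) z = 1).card : ℝ) ≤ Q.card := by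
      exact_mod_cast hB z hz
    linarith
  -- upper bound
  have hup : (∑ q ∈ Q, f q) ^ 2 ≤ Q.card * (Fintype.card (RM ι 1) * B.card) := by
    have h1 : (∑ q ∈ Q, f q) ^ 2 ≤ Q.card * ∑ q ∈ Q, f q ^ 2 := sq_sum_le_card_mul_sum_sq
    have h2 : ∑ q ∈ Q, f q ^ 2 ≤ ∑ q : RM ι 1, f q ^ 2 :=
      Finset.sum_le_sum_of_subset_of_nonneg (Finset.subset_univ _) (fun _ _ _ => sq_nonneg _)
    have h3 : ∑ q : RM ι 1, f q ^ 2 = Fintype.card (RM ι 1) * B.card := by
      have h4 : ∀ q : RM ι 1, f q ^ 2 = ∑ z ∈ B, ∑ z' ∈ B, sg2 ((q : Fn ι) z) * sg2 ((q : Fn ι) z') := by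
        intro q
        rw [hf, pow_two, Finset.sum_mul_sum]
      rw [Finset.sum_congr rfl (fun q _ => h4 q), Finset.sum_comm]
      have h5 : ∀ z ∈ B, ∑ q : RM ι 1, ∑ z' ∈ B, sg2 ((q : Fn ι) z) * sg2 ((q : Fn ι) z') =
          Fintype.card (RM ι 1) := by
        intro z hz
        rw [Finset.sum_comm, Finset.sum_eq_single z]
        · have h6 : ∀ q : RM ι 1, sg2 ((q : Fn ι) z) * sg2 ((q : Fn ι) z) = 1 :=
            fun q => sg2_sq _
          simp only [h6]
          simp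
        · intro z' _ hne
          exact orth hne.symm
        · intro h; exact absurd hz h
      rw [Finset.sum_congr rfl h5, Finset.sum_const, nsmul_eq_mul, mul_comm]
    calc (∑ q ∈ Q, f q) ^ 2 ≤ Q.card * ∑ q ∈ Q, f q ^ 2 := h1
      _ ≤ Q.card * ∑ q : RM ι 1, f q ^ 2 := by gcongr
      _ = _ := by rw [h3]
  have h0 : 0 ≤ (B.card : ℝ) * (Q.card / 2) := by positivity
  have h1 : ((B.card : ℝ) * (Q.card / 2)) ^ 2 ≤ Q.card * (Fintype.card (RM ι 1) * B.card) :=
    (pow_le_pow_left₀ h0 hlow 2).trans hup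
  have h2 : (B.card * Q.card : ℝ) * ((B.card : ℝ) * Q.card) ≤
      (4 * Fintype.card (RM ι 1) : ℝ) * ((B.card : ℝ) * Q.card) := by nlinarith
  have h3 := le_of_mul_le_mul_right h2 (by positivity)
  exact_mod_cast h3

end Pool.Agent.RHO.H33d
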