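import Pool.Agent.RHO.Stmts4

set_option autoImplicit false

namespace Pool.Agent.RHO.H33d

open Finset

theorem zmod2_eq_one {a : ZMod 2} (h : a ≠ 0) : a = 1 := by
  revert h
  revert a
  decide

theorem far : FARStmt := by
  intro ι _ _ Λ hΛ h1
  obtain ⟨φ, hφ1, hφ⟩ := Submodule.exists_le_ker_of_notMem h1
  have hφ1' : φ 1 = 1 := zmod2_eq_one hφ1
  refine ⟨fun i => φ (fun x => x i), fun f hf => ?_⟩
  have key : ∀ f ∈ RM ι 1, f (fun i => φ (fun x => x i)) = φ f := by
    intro f hf
    refine Submodule.span_induction (p := fun f _ => f (fun i => φ (fun x => x i)) = φ f)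
      ?_ ?_ ?_ ?_ hf
    · rintro f ⟨A, hA, rfl⟩
      rcases Nat.lt_or_eq_of_le hA with h | h
      · have h0 : A = ∅ := Finset.card_eq_zero.1 (by omega)
        subst h0
        have : (mon (∅ : Finset ι) : Fn ι) = 1 := by
          funext z
          simp [mon]
        rw [this, hφ1']
        rfl
      · obtain ⟨i, rfl⟩ := Finset.card_eq_one.1 h
        have : (mon ({i} : Finset ι) : Fn ι) = fun x => x i := by
          funext z
          simp [mon]
        rw [this]
    · simp
    · intro x y _ _ hx hy
      rw [Pi.add_apply, hx, hy, map_add]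
    · intro a x _ hx
      rw [Pi.smul_apply, hx, map_smul]
  rw [key f (hΛ hf)]
  exact hφ hf

end Pool.Agent.RHO.H33d
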