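import Pool.Agent.RHO.Stmts4

set_option autoImplicit false

namespace Pool.Agent.RHO.H33d

open Finset

namespace Glu

variable {ι : Type} [Fintype ι] [DecidableEq ι]

theorem pr_add (a b f : Fn ι) : pr (a + b) f = pr a f + pr b f := by
  simp only [pr, Pi.add_apply, add_mul, Finset.sum_add_distrib]

theorem pr_mul (τ a f : Fn ι) : pr (τ * a) f = pr τ (a * f) := by
  simp only [pr, Pi.mul_apply, mul_assoc]

theorem z2_cases (a : ZMod 2) : a = 0 ∨ a = 1 := by
  revert a
  decide

theorem z2_mul_self (a : ZMod 2) : a * a = a := by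
  revert a
  decide

theorem z2_add_self (a : ZMod 2) : a + a = 0 := by
  revert a
  decide

theorem van_mul (rmb : RMBStmt) {D : ℕ} (hD : 1 ≤ D) {τ a : Fn ι} (h : Van τ D)
    (ha : a ∈ RM ι 1) : Van (τ * a) (D - 1) := by
  intro f hf
  rw [pr_mul]
  refine h _ ?_
  have h1 := (rmb ι).2.1 1 (D - 1) a f ha hf
  rwa [Nat.add_sub_cancel' hD] at h1

theorem van_add {D : ℕ} {τ σ : Fn ι} (h : Van τ D) (h' : Van σ D) : Van (τ + σ) D := by
  intro f hf
  rw [pr_add, h f hf, h' f hf, add_zero]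

theorem eq_zero_of (dua : DUAStmt) {D : ℕ} (hD : 1 ≤ D) {τ : Fn ι} (h : Van τ (D - 1))
    (S : Finset (Pt ι)) (hS : ∀ z, τ z ≠ 0 → z ∈ S) (hc : S.card < 2 ^ D) : τ = 0 := by
  by_contra hne
  have h1 := dua ι (D - 1) τ h hne
  rw [Nat.sub_add_cancel hD] at h1
  have h2 : (univ.filter fun z => τ z ≠ 0).card ≤ S.card := by
    refine Finset.card_le_card fun z hz => ?_
    exact hS z (Finset.mem_filter.1 hz).2
  omega

theorem ind_mem {Z : Finset (Pt ι)} {z : Pt ι} (h : z ∈ Z) : ind Z z = 1 := by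
  simp [ind, h]

theorem ind_notMem {Z : Finset (Pt ι)} {z : Pt ι} (h : z ∉ Z) : ind Z z = 0 := by
  simp [ind, h]

theorem mem_of_ind {Z : Finset (Pt ι)} {z : Pt ι} (h : ind Z z ≠ 0) : z ∈ Z := by
  by_contra hn
  exact h (ind_notMem hn)

end Glu

open Glu in
theorem glu (rmb : RMBStmt) (dua : DUAStmt) (chb : CHBStmt) : GLUStmt := by
  intro ι _ _ D N τ Q F hD hN hF
  have hone : (1 : Fn ι) ∈ RM ι 1 := (rmb ι).1 0 1 zero_le_one (rmb ι).2.2.2.1
  -- (i)
  have h1 : ∀ q ∈ Q, ∀ z ∈ F q, (q : Fn ι) z = 1 := by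
    intro q hq z hz
    obtain ⟨hc, hv⟩ := hF q hq
    have h2 := van_mul rmb hD hv (Submodule.add_mem _ q.2 hone)
    have h3 : (τ * (q : Fn ι) + ind (F q)) * ((q : Fn ι) + 1) = ind (F q) * ((q : Fn ι) + 1) := by
      funext x
      simp only [Pi.mul_apply, Pi.add_apply, Pi.one_apply]
      have e1 := z2_mul_self ((q : Fn ι) x)
      have e2 := z2_add_self (τ x * (q : Fn ι) x)
      linear_combination τ x * e1 + e2
    rw [h3] at h2
    have h4 := eq_zero_of dua hD h2 (F q) (fun x hx => by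
      refine mem_of_ind (fun h0 => hx ?_)
      rw [Pi.mul_apply, h0, zero_mul]) (by omega)
    have h5 := congrFun h4 z
    rw [Pi.mul_apply, ind_mem hz, one_mul, Pi.add_apply, Pi.one_apply, Pi.zero_apply] at h5
    rcases z2_cases ((q : Fn ι) z) with h6 | h6
    · rw [h6] at h5
      exact absurd h5 (by decide)
    · exact h6
  -- (ii)
  have h2 : ∀ q ∈ Q, ∀ q' ∈ Q, ∀ z ∈ F q', (q : Fn ι) z = 1 → z ∈ F q := by
    intro q hq q' hq' z hz hqz
    obtain ⟨hc, hv⟩ := hF q hq
    obtain ⟨hc', hv'⟩ := hF q' hq'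
    have h3 := van_add (van_mul rmb hD hv q'.2) (van_mul rmb hD hv' q.2)
    have h4 : (τ * (q : Fn ι) + ind (F q)) * (q' : Fn ι) + (τ * (q' : Fn ι) + ind (F q')) * (q : Fn ι)
        = ind (F q) * (q' : Fn ι) + ind (F q') * (q : Fn ι) := by
      funext x
      simp only [Pi.mul_apply, Pi.add_apply]
      have e2 := z2_add_self (τ x * (q : Fn ι) x * (q' : Fn ι) x)
      linear_combination e2
    rw [h4] at h3
    have h5 := eq_zero_of dua hD h3 (F q ∪ F q') (fun x hx => by
      by_contra hn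
      rw [Finset.mem_union, not_or] at hn
      refine hx ?_
      rw [Pi.add_apply, Pi.mul_apply, Pi.mul_apply, ind_notMem hn.1, ind_notMem hn.2, zero_mul,
        zero_mul, add_zero]) (by
        have := Finset.card_union_le (F q) (F q')
        omega)
    have h6 := congrFun h5 z
    rw [Pi.add_apply, Pi.mul_apply, Pi.mul_apply, ind_mem hz, hqz, one_mul, Pi.zero_apply] at h6
    by_contra hn
    rw [ind_notMem hn, zero_mul, zero_add] at h6
    exact absurd h6 (by decide)
  set F₁ : Finset (Pt ι) := Q.biUnion F with hF₁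
  have hmem : ∀ q ∈ Q, ∀ z, z ∈ F q ↔ z ∈ F₁ ∧ (q : Fn ι) z = 1 := by
    intro q hq z
    constructor
    · intro hz
      exact ⟨Finset.mem_biUnion.2 ⟨q, hq, hz⟩, h1 q hq z hz⟩
    · rintro ⟨hz, hqz⟩
      obtain ⟨q', hq', hz'⟩ := Finset.mem_biUnion.1 hz
      exact h2 q hq q' hq' z hz' hqz
  refine ⟨F₁, fun q hq => ?_, ?_⟩
  · have h3 : (τ + ind F₁) * (q : Fn ι) = τ * (q : Fn ι) + ind (F q) := by
      funext x
      simp only [Pi.mul_apply, Pi.add_apply]
      rw [add_mul]
      congr 1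
      by_cases hx : x ∈ F q
      · obtain ⟨h4, h5⟩ := (hmem q hq x).1 hx
        rw [ind_mem h4, ind_mem hx, h5, one_mul]
      · rw [ind_notMem hx]
        by_cases hx1 : x ∈ F₁
        · rcases z2_cases ((q : Fn ι) x) with h6 | h6
          · rw [h6, mul_zero]
          · exact absurd ((hmem q hq x).2 ⟨hx1, h6⟩) hx
        · rw [ind_notMem hx1, zero_mul]
    rw [h3]
    exact (hF q hq).2
  · -- counting
    have hdc : ∑ z ∈ F₁, (Q.filter fun q : RM ι 1 => (q : Fn ι) z = 1).card = ∑ q ∈ Q, (F q).card := by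
      simp only [Finset.card_filter]
      rw [Finset.sum_comm]
      refine Finset.sum_congr rfl fun q hq => ?_
      rw [← Finset.card_filter]
      congr 1
      ext z
      rw [Finset.mem_filter]
      exact (hmem q hq z).symm
    have hle : ∑ q ∈ Q, (F q).card ≤ N * Q.card := by
      calc ∑ q ∈ Q, (F q).card ≤ ∑ _q ∈ Q, N := Finset.sum_le_sum fun q hq => (hF q hq).1
        _ = N * Q.card := by rw [Finset.sum_const, smul_eq_mul, mul_comm]
    set B := F₁.filter fun z => 4 * (Q.filter fun q : RM ι 1 => (q : Fn ι) z = 1).card ≤ Q.card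
      with hB
    have hBc := chb ι Q B (fun z hz => (Finset.mem_filter.1 hz).2)
    set B' := F₁.filter fun z => ¬ 4 * (Q.filter fun q : RM ι 1 => (q : Fn ι) z = 1).card ≤ Q.card
      with hB'
    have hsum : B.card + B'.card = F₁.card := Finset.card_filter_add_card_filter_not _
    have hB'c : B'.card * Q.card ≤ 4 * (N * Q.card) := by
      calc B'.card * Q.card = ∑ _z ∈ B', Q.card := by rw [Finset.sum_const, smul_eq_mul]
        _ ≤ ∑ z ∈ B', 4 * (Q.filter fun q : RM ι 1 => (q : Fn ι) z = 1).card :=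
            Finset.sum_le_sum fun z hz => (not_le.1 (Finset.mem_filter.1 hz).2).le
        _ ≤ ∑ z ∈ F₁, 4 * (Q.filter fun q : RM ι 1 => (q : Fn ι) z = 1).card :=
            Finset.sum_le_sum_of_subset (Finset.filter_subset _ _)
        _ = 4 * ∑ z ∈ F₁, (Q.filter fun q : RM ι 1 => (q : Fn ι) z = 1).card :=
            (Finset.mul_sum _ _ _).symm
        _ ≤ 4 * (N * Q.card) := by
            rw [hdc]
            exact Nat.mul_le_mul_left 4 hle
    rw [← hsum, add_mul]
    calc B.card * Q.card + B'.card * Q.card ≤ 4 * Fintype.card (RM ι 1) + 4 * (N * Q.card) :=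
          add_le_add hBc hB'c
      _ = 4 * N * Q.card + 4 * Fintype.card (RM ι 1) := by ring

end Pool.Agent.RHO.H33d
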