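import Pool.Agent.RHO.Stmts4

set_option autoImplicit false

namespace Pool.Agent.RHO.H33d

open Finset

theorem iv1_aux (hsl : HSLStmt) (pvb : PVBStmt) (ι : Type) [Fintype ι] [DecidableEq ι] (k1 : ℕ) :
    ∀ (m K : ℕ) (τ : Fn ι), 1 ≤ K → 4 * 8 ^ m * K ≤ 2 ^ k1 → (1 : ℝ) / K ≤ pv m 1 k1 τ →
    ∃ F : Finset (Pt ι), F.card + 2 * K ≤ 2 * 8 ^ m * K ∧ Van (τ + ind F) (k1 + m) := by
  intro m
  induction m with
  | zero =>
    intro K τ hK hk hpv
    classical
    have hV : Van τ k1 := by
      by_contra hn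
      have h0 : pv 0 1 k1 τ = 0 := by
        unfold pv
        have : (Finset.univ.filter fun q : Fin 0 → RM ι 1 => Van (τ * wp q) k1) = ∅ := by
          refine Finset.filter_eq_empty_iff.2 fun q _ => ?_
          have h1 : wp q = 1 := by
            funext z
            simp [wp]
          rw [h1, mul_one]
          exact hn
        rw [this]
        simp
      rw [h0] at hpv
      have : (0:ℝ) < 1 / K := by
        have : (0:ℝ) < K := by exact_mod_cast hK
        positivity
      linarith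
    refine ⟨∅, by simp, ?_⟩
    have h1 : ind (∅ : Finset (Pt ι)) = 0 := by
      funext z
      simp [ind]
    rw [h1, add_zero]
    exact hV
  | succ m ih =>
    intro K τ hK hk hpv
    have hKr : (0:ℝ) < K := by exact_mod_cast hK
    set n : ℝ := (Fintype.card (RM ι 1) : ℝ) with hn
    have hn0 : 0 < n := by
      rw [hn]
      have : Nonempty (RM ι 1) := ⟨0⟩
      exact_mod_cast Fintype.card_pos
    classical
    set Q : Finset (RM ι 1) := univ.filter fun q : RM ι 1 =>
      (1 : ℝ) / (2 * K : ℕ) ≤ pv m 1 k1 (τ * (q : Fn ι)) with hQ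
    have hrec := (pvb ι m 1 k1 τ).2.2.2.1
    rw [hrec] at hpv
    have hsum : n / K ≤ ∑ p : RM ι 1, pv m 1 k1 (τ * (p : Fn ι)) := by
      rw [le_div_iff₀ hn0] at hpv
      calc n / K = 1 / K * n := by ring
        _ ≤ _ := hpv
    have hub : ∑ p : RM ι 1, pv m 1 k1 (τ * (p : Fn ι)) ≤ Q.card + n * (1 / (2 * K)) := by
      have h1 : ∀ p : RM ι 1, pv m 1 k1 (τ * (p : Fn ι)) ≤
          (if p ∈ Q then (1:ℝ) else 0) + 1 / (2 * K) := by
        intro p
        by_cases hp : p ∈ Q
        · rw [if_pos hp]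
          have h2 := (pvb ι m 1 k1 (τ * (p : Fn ι))).2.1
          have h3 : (0:ℝ) ≤ 1 / (2 * K) := by positivity
          linarith
        · rw [if_neg hp, zero_add]
          rw [hQ, Finset.mem_filter, not_and] at hp
          have h4 := not_le.1 (hp (Finset.mem_univ _))
          push_cast at h4
          exact h4.le
      calc ∑ p : RM ι 1, pv m 1 k1 (τ * (p : Fn ι))
          ≤ ∑ p : RM ι 1, ((if p ∈ Q then (1:ℝ) else 0) + 1 / (2 * K)) :=
            Finset.sum_le_sum fun p _ => h1 p
        _ = Q.card + n * (1 / (2 * K)) := by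
            rw [Finset.sum_add_distrib, Finset.sum_const, nsmul_eq_mul, Finset.card_univ,
              Finset.sum_boole, Finset.filter_univ_mem]
    have hQc : Fintype.card (RM ι 1) ≤ 2 * K * Q.card := by
      have h1 : n / K ≤ Q.card + n * (1 / (2 * K)) := hsum.trans hub
      have h2 : n / K = 2 * (n * (1 / (2 * K))) := by field_simp
      have h3 : n * (1 / (2 * K)) ≤ Q.card := by linarith
      have h4 : n ≤ 2 * K * Q.card := by
        have : n = (n * (1 / (2 * K))) * (2 * K) := by field_simp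
        rw [this]
        calc (n * (1 / (2 * K))) * (2 * K) ≤ Q.card * (2 * K) := by gcongr
          _ = 2 * K * Q.card := by ring
      rw [hn] at h4
      exact_mod_cast h4
    have hpow : (8:ℕ) ^ (m + 1) = 8 * 8 ^ m := by rw [pow_succ]; ring
    rw [hpow] at hk
    have h8 : 1 ≤ 8 ^ m := Nat.one_le_pow _ _ (by norm_num)
    have h8K : K ≤ 8 ^ m * K := Nat.le_mul_of_pos_left K (by omega)
    set A := 8 ^ m * K with hA
    have hk' : 32 * A ≤ 2 ^ k1 := by
      calc 32 * A = 4 * (8 * 8 ^ m) * K := by rw [hA]; ring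
        _ ≤ 2 ^ k1 := hk
    have hk1 : 1 ≤ k1 := by
      by_contra hcon
      have : k1 = 0 := by omega
      rw [this] at hk'
      omega
    have hmono : 2 ^ k1 ≤ 2 ^ (k1 + m) := Nat.pow_le_pow_right (by norm_num) (by omega)
    obtain ⟨F, hF1, hF2⟩ := hsl ι (k1 + m) (4 * A - 4 * K) (2 * K) τ Q (by omega) (by omega)
      (by omega) hQc (by
        intro q hq
        have h1 := (Finset.mem_filter.1 hq).2
        obtain ⟨F, h2, h3⟩ := ih (2 * K) (τ * (q : Fn ι)) (by omega) (by
          calc 4 * 8 ^ m * (2 * K) = 8 * A := by rw [hA]; ring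
            _ ≤ 2 ^ k1 := by omega) h1
        refine ⟨F, ?_, h3⟩
        have h4 : 2 * 8 ^ m * (2 * K) = 4 * A := by rw [hA]; ring
        rw [h4] at h2
        omega)
    refine ⟨F, ?_, hF2⟩
    have h5 : 2 * 8 ^ (m + 1) * K = 16 * A := by rw [hpow, hA]; ring
    rw [h5]
    omega

theorem iv1 (hsl : HSLStmt) (pvb : PVBStmt) : IV1Stmt := by
  intro ι _ _ m k1 K τ hK hk hpv
  obtain ⟨F, h1, h2⟩ := iv1_aux hsl pvb ι k1 m K τ hK hk hpv
  exact ⟨F, by omega, h2⟩

end Pool.Agent.RHO.H33d
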